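import Pool.Agent.V11149.Birkhoff

set_option autoImplicit false

namespace Pool.Agent.Results.MP_0e8bc2_co.BipartiteExcessiveIndex

open Finset

/-- `M` is an `[m]`-matching of `G`: a set of exactly `m` pairwise disjoint edges. -/
def IsMMatching {V : Type} (G : SimpleGraph V) (m : ℕ) (M : Finset (Sym2 V)) : Prop :=
  (∀ e ∈ M, e ∈ G.edgeSet) ∧ M.card = m ∧ ∀ e ∈ M, ∀ f ∈ M, e ≠ f → ∀ v, v ∈ e → v ∉ f

/-- every edge lies in an `[m]`-matching. -/
def Coverable {V : Type} (G : SimpleGraph V) (m : ℕ) : Prop :=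
  ∀ e ∈ G.edgeSet, ∃ M, IsMMatching G m M ∧ e ∈ M

/-- The excessive `[m]`-index: least number of `[m]`-matchings whose union is the edge set. -/
noncomputable def excessiveIndex {V : Type} (G : SimpleGraph V) (m : ℕ) : ℕ :=
  sInf {k | ∃ F : Fin k → Finset (Sym2 V), (∀ i, IsMMatching G m (F i)) ∧
    ∀ e ∈ G.edgeSet, ∃ i, e ∈ F i}

/-- The chromatic index. -/
noncomputable def chromaticIndex {V : Type} (G : SimpleGraph V) : ℕ :=
  sInf {k | ∃ c : G.edgeSet → Fin k, ∀ e f : G.edgeSet, e ≠ f →
    (∃ v, v ∈ (e : Sym2 V) ∧ v ∈ (f : Sym2 V)) → c e ≠ c f}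

/-- `S` is (the edge set of) a `t`-splitting set. -/
def IsSplitting {V : Type} (G : SimpleGraph V) (m t : ℕ) (S : Finset (Sym2 V)) : Prop :=
  (∀ e ∈ S, e ∈ G.edgeSet) ∧ (∃ M, M ⊆ S ∧ IsMMatching G (t + 1) M) ∧
    ∀ M, M ⊆ S → IsMMatching G (t + 1) M → ∀ M', IsMMatching G m M' → ¬ M ⊆ M'

/-- The largest number of edges of a `t`-splitting set (0 if there is none). -/
noncomputable def splitNumber {V : Type} (G : SimpleGraph V) (m t : ℕ) : ℕ :=
  sSup {n | ∃ S, IsSplitting G m t S ∧ S.card = n}

lemma sub_matching {V : Type} (G : SimpleGraph V) (m n : ℕ) (M M' : Finset (Sym2 V))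
    (h : IsMMatching G m M) (h' : M' ⊆ M) (hn : M'.card = n) : IsMMatching G n M' :=
  ⟨fun e he => h.1 e (h' he), hn, fun e he f hf => h.2.2 e (h' he) f (h' hf)⟩

/-- the right-hand side of the formula. -/
noncomputable def rhs {V : Type} (G : SimpleGraph V) (m : ℕ) : ℕ :=
  max (max (chromaticIndex G) ⌈(G.edgeSet.ncard : ℚ) / m⌉₊)
    ((Finset.Icc 1 (m - 1)).sup fun t => ⌈(splitNumber G m t : ℚ) / t⌉₊)

lemma lower {V : Type} [Fintype V] (G : SimpleGraph V) (m : ℕ) (hm : 1 ≤ m) (k : ℕ)
    (hk : ∃ F : Fin k → Finset (Sym2 V), (∀ i, IsMMatching G m (F i)) ∧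
      ∀ e ∈ G.edgeSet, ∃ i, e ∈ F i) : rhs G m ≤ k := by
  classical
  obtain ⟨F, hF, hcov⟩ := hk
  unfold rhs
  refine max_le (max_le ?_ ?_) ?_
  · choose c hc using hcov
    apply Nat.sInf_le
    refine ⟨fun e => c e.1 e.2, ?_⟩
    rintro e f hne ⟨v, hv, hw⟩ heq
    have h1 := hc e.1 e.2
    have h2 := hc f.1 f.2
    simp only at heq
    rw [heq] at h1
    exact (hF _).2.2 _ h1 _ h2 (fun h => hne (Subtype.ext h)) v hv hw
  · rw [Nat.ceil_le, div_le_iff₀ (by exact_mod_cast hm)]
    have h1 : G.edgeSet ⊆ ((univ.biUnion F : Finset (Sym2 V)) : Set (Sym2 V)) := by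
      intro e he
      obtain ⟨i, hi⟩ := hcov e he
      rw [Finset.mem_coe, Finset.mem_biUnion]
      exact ⟨i, Finset.mem_univ _, hi⟩
    have h2 := Set.ncard_le_ncard h1 (Finset.finite_toSet _)
    rw [Set.ncard_coe_finset] at h2
    have h3 : (univ.biUnion F).card ≤ k * m := by
      refine Finset.card_biUnion_le.trans ?_
      simp only [(hF _).2.1, Finset.sum_const, Finset.card_univ, Fintype.card_fin, smul_eq_mul]
      exact le_rfl
    exact_mod_cast h2.trans h3
  · apply Finset.sup_le
    intro t ht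
    rw [Finset.mem_Icc] at ht
    rw [Nat.ceil_le, div_le_iff₀ (by exact_mod_cast ht.1)]
    have h1 : splitNumber G m t ≤ k * t := by
      apply csSup_le'
      rintro n ⟨S, hS, rfl⟩
      have h2 : S ⊆ univ.biUnion (fun i => S ∩ F i) := by
        intro e he
        obtain ⟨i, hi⟩ := hcov e (hS.1 e he)
        rw [Finset.mem_biUnion]
        exact ⟨i, Finset.mem_univ _, Finset.mem_inter.mpr ⟨he, hi⟩⟩
      refine (Finset.card_le_card h2).trans (Finset.card_biUnion_le.trans ?_)
      have h3 : ∀ i ∈ (univ : Finset (Fin k)), (S ∩ F i).card ≤ t := by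
        intro i _
        by_contra hcon
        push Not at hcon
        obtain ⟨M, hM, hMc⟩ := Finset.exists_subset_card_eq (Nat.succ_le_of_lt hcon)
        exact hS.2.2 M (hM.trans Finset.inter_subset_left)
          (sub_matching G m (t + 1) (F i) M (hF i) (hM.trans Finset.inter_subset_right) hMc)
          (F i) (hF i) (hM.trans Finset.inter_subset_right)
      refine (Finset.sum_le_sum h3).trans ?_
      simp
    exact_mod_cast h1

lemma upper {V : Type} [Fintype V] (G : SimpleGraph V) (m : ℕ) (hm : 1 ≤ m)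
    (hbip : G.IsBipartite) (hcov : Coverable G m) :
    ∃ F : Fin (rhs G m) → Finset (Sym2 V), (∀ i, IsMMatching G m (F i)) ∧
      ∀ e ∈ G.edgeSet, ∃ i, e ∈ F i := by
  classical
  by_cases hE0 : G.edgeSet = ∅
  · have h0 : ∃ F : Fin 0 → Finset (Sym2 V), (∀ i, IsMMatching G m (F i)) ∧
      ∀ e ∈ G.edgeSet, ∃ i, e ∈ F i :=
      ⟨fun i => i.elim0, fun i => i.elim0, fun e he => by rw [hE0] at he; exact absurd he (by simp)⟩
    have h1 := lower G m hm 0 h0
    rw [Nat.le_zero.mp h1]
    exact h0
  obtain ⟨e0, he0⟩ := Set.nonempty_iff_ne_empty.mpr hE0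
  obtain ⟨M0, hM0, -⟩ := hcov e0 he0
  set K := rhs G m with hK
  -- consequences of the definition of K
  have hK1 : chromaticIndex G ≤ K := (le_max_left _ _).trans (le_max_left _ _)
  have hK2 : G.edgeSet.ncard ≤ K * m := by
    have h1 : ⌈(G.edgeSet.ncard : ℚ) / m⌉₊ ≤ K := (le_max_right _ _).trans (le_max_left _ _)
    rw [Nat.ceil_le, div_le_iff₀ (by exact_mod_cast hm)] at h1
    exact_mod_cast h1
  have hK3 : ∀ t, 1 ≤ t → t ≤ m - 1 → splitNumber G m t ≤ K * t := by
    intro t h1 h2
    have h3 : ⌈(splitNumber G m t : ℚ) / t⌉₊ ≤ K :=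
      (Finset.le_sup (f := fun t => ⌈(splitNumber G m t : ℚ) / t⌉₊)
        (Finset.mem_Icc.mpr ⟨h1, h2⟩)).trans (le_max_right _ _)
    rw [Nat.ceil_le, div_le_iff₀ (by exact_mod_cast h1)] at h3
    exact_mod_cast h3
  -- a proper edge colouring
  obtain ⟨c, hc⟩ : ∃ c : G.edgeSet → Fin (chromaticIndex G), ∀ e f : G.edgeSet, e ≠ f →
      (∃ v, v ∈ (e : Sym2 V) ∧ v ∈ (f : Sym2 V)) → c e ≠ c f := by
    have hne : {k | ∃ c : G.edgeSet → Fin k, ∀ e f : G.edgeSet, e ≠ f →
        (∃ v, v ∈ (e : Sym2 V) ∧ v ∈ (f : Sym2 V)) → c e ≠ c f}.Nonempty := by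
      refine ⟨Fintype.card G.edgeSet, Fintype.equivFin G.edgeSet, ?_⟩
      intro e f hne _ h
      exact hne ((Fintype.equivFin G.edgeSet).injective h)
    exact Nat.sInf_mem hne
  -- bipartition
  obtain ⟨C⟩ := hbip
  let U := {v : V // C v = 0}
  let W := {v : V // C v = 1}
  let E : Finset (U × W) := univ.filter (fun p => G.Adj p.1.1 p.2.1)
  let j : U × W → Sym2 V := fun p => s(p.1.1, p.2.1)
  have hUW : ∀ (u : U) (w : W), u.1 ≠ w.1 := by
    intro u w h
    have h1 := u.2
    rw [h, w.2] at h1
    exact absurd h1 (by decide)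
  have hj : Function.Injective j := by
    intro p q h
    rw [Sym2.eq_iff] at h
    rcases h with ⟨h1, h2⟩ | ⟨h1, _⟩
    · exact Prod.ext (Subtype.ext h1) (Subtype.ext h2)
    · exact absurd h1 (hUW _ _)
  have hEj : ∀ p, p ∈ E ↔ j p ∈ G.edgeSet := by
    intro p
    simp only [E, Finset.mem_filter, Finset.mem_univ, true_and, j]
    exact Iff.rfl
  have hsurj : ∀ e ∈ G.edgeSet, ∃ p ∈ E, j p = e := by
    intro e he
    induction e with
    | _ a b =>
      have hadj : G.Adj a b := he
      have hne := C.valid hadj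
      have hab : (C a = 0 ∧ C b = 1) ∨ (C a = 1 ∧ C b = 0) := by
        revert hne
        generalize C a = x
        generalize C b = y
        revert x y
        decide
      rcases hab with ⟨h1, h2⟩ | ⟨h1, h2⟩
      · exact ⟨(⟨a, h1⟩, ⟨b, h2⟩), (hEj _).mpr he, rfl⟩
      · refine ⟨(⟨b, h2⟩, ⟨a, h1⟩), (hEj _).mpr ?_, Sym2.eq_swap⟩
        exact hadj.symm
  have share : ∀ p q : U × W, (∃ v, v ∈ j p ∧ v ∈ j q) ↔ (p.1 = q.1 ∨ p.2 = q.2) := by
    intro p q
    constructor
    · rintro ⟨v, hv, hw⟩
      simp only [j, Sym2.mem_iff] at hv hw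
      rcases hv with rfl | rfl <;> rcases hw with h | h
      · exact Or.inl (Subtype.ext h)
      · exact absurd h (hUW _ _)
      · exact absurd h.symm (hUW _ _)
      · exact Or.inr (Subtype.ext h)
    · rintro (h | h)
      · exact ⟨p.1.1, by simp [j], by simp [j, h]⟩
      · exact ⟨p.2.1, by simp [j], by simp [j, h]⟩
  -- pull back of edge sets
  let pb : Finset (Sym2 V) → Finset (U × W) := fun M => univ.filter (fun p => j p ∈ M)
  have hpb : ∀ M p, p ∈ pb M ↔ j p ∈ M := by intro M p; simp [pb]
  have hpbc : ∀ M : Finset (Sym2 V), (∀ e ∈ M, e ∈ G.edgeSet) → (pb M).card = M.card := by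
    intro M hM
    apply Finset.card_bij (fun p _ => j p)
    · intro p hp; exact (hpb M p).mp hp
    · intro p _ q _ h; exact hj h
    · intro e he
      obtain ⟨p, _, hp⟩ := hsurj e (hM e he)
      exact ⟨p, (hpb M p).mpr (by rw [hp]; exact he), hp⟩
  have hpb1 : ∀ n M, IsMMatching G n M → ∀ p ∈ pb M, ∀ q ∈ pb M, p.1 = q.1 → p = q := by
    intro n M hM p hp q hq h
    by_contra hne
    obtain ⟨v, hv, hw⟩ := (share p q).mpr (Or.inl h)
    exact hM.2.2 _ ((hpb M p).mp hp) _ ((hpb M q).mp hq) (fun h' => hne (hj h')) v hv hw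
  have hpb2 : ∀ n M, IsMMatching G n M → ∀ p ∈ pb M, ∀ q ∈ pb M, p.2 = q.2 → p = q := by
    intro n M hM p hp q hq h
    by_contra hne
    obtain ⟨v, hv, hw⟩ := (share p q).mpr (Or.inr h)
    exact hM.2.2 _ ((hpb M p).mp hp) _ ((hpb M q).mp hq) (fun h' => hne (hj h')) v hv hw
  -- images are matchings
  have himg : ∀ (n : ℕ) (P : Finset (U × W)), P ⊆ E → P.card = n →
      (∀ p ∈ P, ∀ q ∈ P, p.1 = q.1 → p = q) → (∀ p ∈ P, ∀ q ∈ P, p.2 = q.2 → p = q) →
      IsMMatching G n (P.image j) := by
    intro n P hPE hPn h1 h2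
    refine ⟨?_, ?_, ?_⟩
    · intro e he
      rw [Finset.mem_image] at he
      obtain ⟨p, hp, rfl⟩ := he
      exact (hEj p).mp (hPE hp)
    · rw [Finset.card_image_of_injective _ hj, hPn]
    · intro e he f hf hne v hv hw
      rw [Finset.mem_image] at he hf
      obtain ⟨p, hp, rfl⟩ := he
      obtain ⟨q, hq, rfl⟩ := hf
      rcases (share p q).mp ⟨v, hv, hw⟩ with h | h
      · exact hne (by rw [h1 p hp q hq h])
      · exact hne (by rw [h2 p hp q hq h])
  -- colour classes
  have hcol : ∀ p (hp : p ∈ E) q (hq : q ∈ E), c ⟨j p, (hEj p).mp hp⟩ = c ⟨j q, (hEj q).mp hq⟩ →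
      (p.1 = q.1 ∨ p.2 = q.2) → p = q := by
    intro p hp q hq h1 h2
    by_contra hne
    exact hc ⟨j p, (hEj p).mp hp⟩ ⟨j q, (hEj q).mp hq⟩
      (fun h => hne (hj (congrArg Subtype.val h))) ((share p q).mpr h2) h1
  let cc : U × W → Option (Fin (chromaticIndex G)) := fun p =>
    if hp : p ∈ E then some (c ⟨j p, (hEj p).mp hp⟩) else none
  have hcc : ∀ p ∈ E, ∃ x, cc p = some x := by
    intro p hp
    exact ⟨_, dif_pos hp⟩
  have hcc2 : ∀ p ∈ E, ∀ q ∈ E, cc p = cc q → (p.1 = q.1 ∨ p.2 = q.2) → p = q := by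
    intro p hp q hq h
    simp only [cc, dif_pos hp, dif_pos hq, Option.some.injEq] at h
    exact hcol p hp q hq h
  have hdeg : ∀ P : Finset (U × W), P ⊆ E → (∀ p ∈ P, ∀ q ∈ P, p.1 = q.1 ∨ p.2 = q.2) →
      P.card ≤ K := by
    intro P hPE hP
    refine le_trans ?_ hK1
    have : P.card ≤ (univ.image (some : Fin (chromaticIndex G) → Option _)).card := by
      apply Finset.card_le_card_of_injOn cc
      · intro p hp
        obtain ⟨x, hx⟩ := hcc p (hPE hp)
        rw [hx, Finset.mem_coe]
        exact Finset.mem_image_of_mem _ (Finset.mem_univ _)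
      · intro p hp q hq h
        exact hcc2 p (hPE hp) q (hPE hq) h (hP p hp q hq)
    refine this.trans (Finset.card_image_le.trans ?_)
    rw [Finset.card_univ, Fintype.card_fin]
  have hEcard : E.card ≤ K * m := by
    have h1 : (E.image j : Finset (Sym2 V)).card ≤ G.edgeSet.ncard := by
      rw [← Set.ncard_coe_finset]
      apply Set.ncard_le_ncard _ (Set.toFinite _)
      intro e he
      rw [Finset.mem_coe, Finset.mem_image] at he
      obtain ⟨p, hp, rfl⟩ := he
      exact (hEj p).mp hp
    rw [Finset.card_image_of_injective _ hj] at h1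
    exact h1.trans hK2
  -- the key count
  have hkey : ∀ (X : Finset U) (M : Finset (Sym2 V)), IsMMatching G m M →
      m + ((pb M).filter (fun p => p.1 ∉ X ∧ ∃ u ∈ X, (u, p.2) ∈ E)).card ≤
      Xᶜ.card + (univ.filter (fun w : W => ∃ u ∈ X, (u, w) ∈ E)).card := by
    intro X M hM
    set A := (pb M).filter (fun p => p.1 ∉ X) with hA
    set B := (pb M).filter (fun p => ∃ u ∈ X, (u, p.2) ∈ E) with hB
    have h1 : A ∪ B = pb M := by
      ext p
      simp only [hA, hB, Finset.mem_union, Finset.mem_filter]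
      constructor
      · rintro (h | h) <;> exact h.1
      · intro h
        by_cases hp : p.1 ∈ X
        · right
          exact ⟨h, p.1, hp, (hEj p).mpr (hM.1 _ ((hpb M p).mp h))⟩
        · exact Or.inl ⟨h, hp⟩
    have h2 : A ∩ B = (pb M).filter (fun p => p.1 ∉ X ∧ ∃ u ∈ X, (u, p.2) ∈ E) := by
      ext p
      simp only [hA, hB, Finset.mem_inter, Finset.mem_filter]
      tauto
    have h3 := Finset.card_union_add_card_inter A B
    rw [h1, h2, hpbc M hM.1, hM.2.1] at h3
    have h4 : A.card ≤ Xᶜ.card := by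
      apply Finset.card_le_card_of_injOn (fun p => p.1)
      · intro p hp
        rw [Finset.mem_coe, hA, Finset.mem_filter] at hp
        rw [Finset.mem_coe, Finset.mem_compl]
        exact hp.2
      · intro p hp q hq h
        rw [Finset.mem_coe, hA, Finset.mem_filter] at hp hq
        exact hpb1 m M hM p hp.1 q hq.1 h
    have h5 : B.card ≤ (univ.filter (fun w : W => ∃ u ∈ X, (u, w) ∈ E)).card := by
      apply Finset.card_le_card_of_injOn (fun p => p.2)
      · intro p hp
        rw [Finset.mem_coe, hB, Finset.mem_filter] at hp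
        rw [Finset.mem_coe, Finset.mem_filter]
        exact ⟨Finset.mem_univ _, hp.2⟩
      · intro p hp q hq h
        rw [Finset.mem_coe, hB, Finset.mem_filter] at hp hq
        exact hpb2 m M hM p hp.1 q hq.1 h
    omega
  obtain ⟨F, hF1, hF2⟩ := Pool.Agent.V11149.Birkhoff.cover E m K hEcard
    (fun u => hdeg _ (Finset.filter_subset _ _) (by
      intro p hp q hq
      rw [Finset.mem_filter] at hp hq
      exact Or.inl (hp.2.trans hq.2.symm)))
    (fun w => hdeg _ (Finset.filter_subset _ _) (by
      intro p hp q hq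
      rw [Finset.mem_filter] at hp hq
      exact Or.inr (hp.2.trans hq.2.symm)))
    (by
      rw [← hM0.2.1, ← hpbc M0 hM0.1, ← Finset.card_univ]
      exact Finset.card_le_card_of_injOn (fun p => p.1) (fun p _ => Finset.mem_coe.mpr (Finset.mem_univ _))
        (fun p hp q hq h => hpb1 m M0 hM0 p hp q hq h))
    (by
      rw [← hM0.2.1, ← hpbc M0 hM0.1, ← Finset.card_univ]
      exact Finset.card_le_card_of_injOn (fun p => p.2) (fun p _ => Finset.mem_coe.mpr (Finset.mem_univ _))
        (fun p hp q hq h => hpb2 m M0 hM0 p hp q hq h))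
    (by
      intro X
      set S := E.filter (fun p => p.1 ∉ X ∧ ∃ u ∈ X, (u, p.2) ∈ E) with hS
      set cX := Xᶜ.card + (univ.filter (fun w : W => ∃ u ∈ X, (u, w) ∈ E)).card with hcX
      have hm0 : m ≤ cX := by
        have := hkey X M0 hM0
        omega
      obtain ⟨t, ht⟩ := Nat.exists_eq_add_of_le hm0
      rw [ht, mul_add]
      apply Nat.add_le_add_left
      have hSE : S.card ≤ K * m := (Finset.card_le_card (Finset.filter_subset _ _)).trans hEcard
      -- intersection with a matching containing few edges of S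
      have hint : ∀ (n : ℕ) (M : Finset (Sym2 V)), IsMMatching G m M → ∀ P : Finset (U × W),
          P ⊆ S → P.card = n → (∀ p ∈ P, j p ∈ M) → n ≤ t := by
        intro n M hM P hPS hPn hPM
        have h1 := hkey X M hM
        have h2 : P ⊆ (pb M).filter (fun p => p.1 ∉ X ∧ ∃ u ∈ X, (u, p.2) ∈ E) := by
          intro p hp
          rw [Finset.mem_filter]
          have h3 := hPS hp
          rw [hS, Finset.mem_filter] at h3
          exact ⟨(hpb M p).mpr (hPM p hp), h3.2⟩
        have h4 := Finset.card_le_card h2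
        omega
      rcases Nat.eq_zero_or_pos t with ht0 | ht0
      · have hSe : S = ∅ := by
          by_contra hne
          obtain ⟨p, hp⟩ := Finset.nonempty_iff_ne_empty.mpr hne
          have hpE : p ∈ E := (Finset.mem_filter.mp hp).1
          obtain ⟨M, hM, hpM⟩ := hcov (j p) ((hEj p).mp hpE)
          have := hint 1 M hM {p} (Finset.singleton_subset_iff.mpr hp) (Finset.card_singleton p)
            (fun q hq => by rw [Finset.mem_singleton] at hq; rw [hq]; exact hpM)
          omega
        rw [hSe]; simp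
      · rcases Nat.lt_or_ge t m with htm | htm
        · by_cases hsp : ∃ M, M ⊆ S.image j ∧ IsMMatching G (t + 1) M
          · have hspl : IsSplitting G m t (S.image j) := by
              refine ⟨?_, hsp, ?_⟩
              · intro e he
                rw [Finset.mem_image] at he
                obtain ⟨p, hp, rfl⟩ := he
                exact (hEj p).mp (Finset.mem_filter.mp hp).1
              · intro M hMS hM M' hM' hMM'
                have h1 := hint (t + 1) M' hM' (pb M) (by
                  intro p hp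
                  have h2 := hMS ((hpb M p).mp hp)
                  rw [Finset.mem_image] at h2
                  obtain ⟨q, hq, hqp⟩ := h2
                  rw [← hj hqp]; exact hq) (by rw [hpbc M hM.1, hM.2.1])
                  (fun p hp => hMM' ((hpb M p).mp hp))
                omega
            have hb : BddAbove {n | ∃ S, IsSplitting G m t S ∧ S.card = n} := by
              refine ⟨Fintype.card (Sym2 V), ?_⟩
              rintro n ⟨S', _, rfl⟩
              exact Finset.card_le_univ S'
            have h1 : (S.image j).card ≤ splitNumber G m t :=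
              le_csSup hb ⟨S.image j, hspl, rfl⟩
            rw [Finset.card_image_of_injective _ hj] at h1
            exact h1.trans (hK3 t ht0 (by omega))
          · -- colour classes have size at most t
            have h1 := Finset.card_eq_sum_card_fiberwise (s := S)
              (t := univ.image (some : Fin (chromaticIndex G) → Option _)) (f := cc) (by
                intro p hp
                obtain ⟨x, hx⟩ := hcc p (Finset.mem_filter.mp hp).1
                rw [hx, Finset.mem_coe]
                exact Finset.mem_image_of_mem _ (Finset.mem_univ _))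
            rw [h1]
            have h2 : ∀ x ∈ univ.image (some : Fin (chromaticIndex G) → Option _),
                (S.filter (fun p => cc p = x)).card ≤ t := by
              intro x _
              by_contra hcon
              push Not at hcon
              obtain ⟨P, hP, hPc⟩ := Finset.exists_subset_card_eq (Nat.succ_le_of_lt hcon)
              apply hsp
              have hPE : ∀ p ∈ P, p ∈ E := fun p hp =>
                (Finset.mem_filter.mp (Finset.mem_filter.mp (hP hp)).1).1
              have hPx : ∀ p ∈ P, cc p = x := fun p hp => (Finset.mem_filter.mp (hP hp)).2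
              refine ⟨P.image j, ?_, himg (t + 1) P hPE hPc ?_ ?_⟩
              · apply Finset.image_subset_image
                exact hP.trans (Finset.filter_subset _ _)
              · intro p hp q hq h
                exact hcc2 p (hPE p hp) q (hPE q hq) ((hPx p hp).trans (hPx q hq).symm) (Or.inl h)
              · intro p hp q hq h
                exact hcc2 p (hPE p hp) q (hPE q hq) ((hPx p hp).trans (hPx q hq).symm) (Or.inr h)
            refine (Finset.sum_le_sum h2).trans ?_
            rw [Finset.sum_const, smul_eq_mul]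
            apply Nat.mul_le_mul_right
            refine Finset.card_image_le.trans ?_
            rw [Finset.card_univ, Fintype.card_fin]
            exact hK1
        · exact hSE.trans (Nat.mul_le_mul_left K htm))
  refine ⟨fun i => (F i).image j, ?_, ?_⟩
  · intro i
    obtain ⟨h1, h2, h3, h4⟩ := hF1 i
    exact himg m (F i) h1 h2 h3 h4
  · intro e he
    obtain ⟨p, hp, rfl⟩ := hsurj e he
    obtain ⟨i, hi⟩ := hF2 p hp
    exact ⟨i, Finset.mem_image_of_mem _ hi⟩

/-- For every `m ≥ 1` and every `[m]`-coverable finite bipartite graph `G`, the excessive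
`[m]`-index equals the maximum of the chromatic index, `⌈|E(G)|/m⌉` and the numbers
`⌈s^t(G)/t⌉` for `1 ≤ t ≤ m - 1`. -/
theorem result : ∀ (V : Type) [Fintype V] (G : SimpleGraph V) (m : ℕ), 1 ≤ m → G.IsBipartite →
    Coverable G m → excessiveIndex G m =
      max (max (chromaticIndex G) ⌈(G.edgeSet.ncard : ℚ) / m⌉₊)
        ((Finset.Icc 1 (m - 1)).sup fun t => ⌈(splitNumber G m t : ℚ) / t⌉₊) := by
  intro V _ G m hm hbip hcov
  have h := upper G m hm hbip hcov
  apply le_antisymm
  · exact Nat.sInf_le h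
  · exact le_csInf ⟨_, h⟩ (fun k hk => lower G m hm k hk)

end Pool.Agent.Results.MP_0e8bc2_co.BipartiteExcessiveIndex
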